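import Pool.Agent.X224.CT.Base

/-!
# MP_7d00fe_an: the coefficient truncation operators grow at least polynomially in `L_p`, `p < 2`

For every `0 < p < 2` there are `δ > 0` and `c > 0` with `N^comp_{n,p} ≥ c n^δ` for all `n ≥ 1`.
In particular `N^comp_{n,p}` is unbounded for every `p ∈ (0,2)` (negative answer to Q2).
-/

open MeasureTheory Filter Topology AddCircle Polynomial
open scoped ComplexConjugate Real

namespace Pool.Agent.Results.MP_7d00fe_an.PolynomialGrowth

open Pool.Agent.X224.CT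

local instance : Fact (0 < 2 * π) := ⟨Real.two_pi_pos⟩

/-- the coefficient `a` pulled radially into the closed unit disc -/
noncomputable def pull (a : ℂ) : ℂ := if ‖a‖ < 1 then a else a / ‖a‖

/-- The map `S_n` of the problem (it does not depend on `n ≥ deg P`): all coefficients are pulled
radially into the closed unit disc. -/
noncomputable def Strunc (P : ℂ[X]) : ℂ[X] :=
  ∑ j ∈ Finset.range (P.natDegree + 1), monomial j (pull (P.coeff j))

/-- `‖P‖_p` over the unit circle, with arc length measure. -/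
noncomputable def Lp (p : ℝ) (P : ℂ[X]) : ℝ :=
  (∫ t in (0 : ℝ)..2 * π, ‖P.eval (Complex.exp (t * Complex.I))‖ ^ p) ^ (1 / p)

lemma pull_eq (a : ℂ) : pull a = trunc a := by
  unfold pull trunc
  split_ifs with h
  · rw [min_eq_left h.le]
    by_cases ha : a = 0
    · simp [ha]
    · have : (‖a‖ : ℂ) ≠ 0 := by
        rw [Complex.ofReal_ne_zero]
        exact norm_ne_zero_iff.2 ha
      field_simp
  · rw [min_eq_right (not_lt.1 h)]
    simp

lemma Strunc_eq (P : ℂ[X]) : Strunc P = S P := by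
  unfold Strunc S
  simp [pull_eq]

/-- Uniform form of Fejér's lemma. -/
lemma uniform (f : C(𝕋, ℂ)) {ε : ℝ} (hε : 0 < ε) : ∃ N0 : ℕ, ∀ N ≥ N0,
    ∀ g : C(𝕋, ℂ),
    ‖(∫ x, f x * dil N g x ∂μ) -
      (∫ x, f x ∂μ) * ∫ x, g x ∂μ‖ ≤
      ε * ∫ x, ‖g x‖ ∂μ := by
  let V : Submodule ℂ C(𝕋, ℂ) :=
    { carrier := {f | ∃ N0 : ℕ, ∀ N ≥ N0, ∀ g : C(𝕋, ℂ),
        ∫ x, f x * dil N g x ∂μ = (∫ x, f x ∂μ) * ∫ x, g x ∂μ}
      add_mem' := by
        rintro f1 f2 ⟨N1, h1⟩ ⟨N2, h2⟩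
        refine ⟨max N1 N2, fun N hN g => ?_⟩
        simp only [ContinuousMap.add_apply, add_mul]
        rw [integral_add (cint f1) (cint f2), add_mul, ← h1 N (le_trans (le_max_left _ _) hN),
          ← h2 N (le_trans (le_max_right _ _) hN)]
        exact integral_add (cint (f1 * dil N g)) (cint (f2 * dil N g))
      zero_mem' := ⟨0, fun N _ g => by simp⟩
      smul_mem' := by
        rintro c f1 ⟨N1, h1⟩
        refine ⟨N1, fun N hN g => ?_⟩
        simp only [ContinuousMap.smul_apply, smul_eq_mul, mul_assoc]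
        rw [integral_const_mul, integral_const_mul, h1 N hN, mul_assoc] }
  have hsub : Submodule.span ℂ (Set.range (@fourier (2 * π))) ≤ V := by
    rw [Submodule.span_le]
    rintro _ ⟨m, rfl⟩
    refine ⟨m.natAbs + 1, fun N hN g => ?_⟩
    by_cases hm : m = 0
    · subst hm
      have hN' : N ≠ 0 := by simp at hN; omega
      have := integral_dil N hN' g
      simpa using this
    · rw [integral_fourier m hm, zero_mul]
      refine integral_fourier_dil m N hm ?_ g
      rw [Int.abs_eq_natAbs]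
      exact_mod_cast Nat.lt_of_succ_le hN
  have hf : f ∈ (Submodule.span ℂ (Set.range (@fourier (2 * π)))).topologicalClosure := by
    rw [span_fourier_closure_eq_top]; exact Submodule.mem_top
  obtain ⟨f', hf', hd⟩ := Metric.mem_closure_iff.1 hf (ε / 2) (by positivity)
  obtain ⟨N0, hN0⟩ := hsub hf'
  refine ⟨max N0 1, fun N hN g => ?_⟩
  have hN1 : N ≥ N0 := le_trans (le_max_left _ _) hN
  have hNn : N ≠ 0 := by
    have := le_trans (le_max_right N0 1) hN
    omega
  rw [dist_eq_norm] at hd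
  have e0 := hN0 N hN1 g
  have e1 : ∫ x, (f - f') x ∂μ = (∫ x, f x ∂μ) - ∫ x, f' x ∂μ := integral_sub (cint f) (cint f')
  have e2 : ∫ x, (f - f') x * dil N g x ∂μ =
      (∫ x, f x * dil N g x ∂μ) - ∫ x, f' x * dil N g x ∂μ := by
    calc _ = ∫ x, ((f * dil N g) x - (f' * dil N g) x) ∂μ := by
          congr 1
          ext x
          simp only [ContinuousMap.sub_apply, ContinuousMap.mul_apply]
          ring
      _ = _ := integral_sub (cint (f * dil N g)) (cint (f' * dil N g))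
  have key : (∫ x, f x * dil N g x ∂μ) - (∫ x, f x ∂μ) * ∫ x, g x ∂μ =
      (∫ x, (f - f') x * dil N g x ∂μ) - (∫ x, (f - f') x ∂μ) * ∫ x, g x ∂μ := by
    rw [e1, e2, e0]; ring
  have hn : Continuous fun x => ‖g x‖ := g.continuous.norm
  have b1 : ‖∫ x, (f - f') x * dil N g x ∂μ‖ ≤ ‖f - f'‖ * ∫ x, ‖g x‖ ∂μ := by
    have h1 : ∫ x, ‖g x‖ ∂μ = ∫ x, ‖dil N g x‖ ∂μ := by
      have h2 : ∫ x, (⟨fun x => ((‖g x‖ : ℝ) : ℂ), Complex.continuous_ofReal.comp hn⟩ :
          C(𝕋, ℂ)) (N • x) ∂μ = ∫ x, ((‖g x‖ : ℝ) : ℂ) ∂μ :=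
        integral_dil N hNn ⟨fun x => ((‖g x‖ : ℝ) : ℂ), Complex.continuous_ofReal.comp hn⟩
      simp only [ContinuousMap.coe_mk] at h2
      have h3 : ((∫ x, ‖g (N • x)‖ ∂μ : ℝ) : ℂ) = ((∫ x, ‖g x‖ ∂μ : ℝ) : ℂ) := by
        have i1 : ∫ x, ((‖g (N • x)‖ : ℝ) : ℂ) ∂μ = ((∫ x, ‖g (N • x)‖ ∂μ : ℝ) : ℂ) :=
          integral_ofReal
        have i2 : ∫ x, ((‖g x‖ : ℝ) : ℂ) ∂μ = ((∫ x, ‖g x‖ ∂μ : ℝ) : ℂ) := integral_ofReal
        rw [← i1, ← i2]; exact h2
      exact (Complex.ofReal_injective h3).symm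
    rw [h1, ← integral_const_mul]
    refine norm_integral_le_of_norm_le ?_ (Eventually.of_forall fun x => ?_)
    · exact (rint ((dil N g).continuous.norm)).const_mul _
    · rw [norm_mul]
      exact mul_le_mul_of_nonneg_right ((f - f').norm_coe_le_norm x) (norm_nonneg _)
  have b2 : ‖(∫ x, (f - f') x ∂μ) * ∫ x, g x ∂μ‖ ≤ ‖f - f'‖ * ∫ x, ‖g x‖ ∂μ := by
    rw [norm_mul]
    gcongr
    · exact norm_int_le _
    · exact norm_integral_le_integral_norm _
  have hg0 : 0 ≤ ∫ x, ‖g x‖ ∂μ := integral_nonneg fun _ => norm_nonneg _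
  rw [key]
  calc _ ≤ _ := norm_sub_le _ _
    _ ≤ ‖f - f'‖ * (∫ x, ‖g x‖ ∂μ) + ‖f - f'‖ * ∫ x, ‖g x‖ ∂μ := add_le_add b1 b2
    _ ≤ ε / 2 * (∫ x, ‖g x‖ ∂μ) + ε / 2 * ∫ x, ‖g x‖ ∂μ := by gcongr
    _ = _ := by ring

lemma uniform_I (p : ℝ) (hp : 0 < p) (P : ℂ[X]) {ε : ℝ} (hε : 0 < ε) : ∃ N0 : ℕ, ∀ N ≥ N0,
    ∀ R : ℂ[X], |I p (P * expand ℂ N R) - I p P * I p R| ≤ ε * I p R := by
  obtain ⟨N0, hN0⟩ := uniform (absPow p hp P) hε
  refine ⟨N0, fun N hN R => ?_⟩
  have h := hN0 N hN (absPow p hp R)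
  have h2 : ∫ x, absPow p hp P x * dil N (absPow p hp R) x ∂μ =
      (I p (P * expand ℂ N R) : ℂ) := by
    rw [← integral_absPow p hp]
    congr 1
    ext x
    simp only [absPow, dil, ContinuousMap.coe_mk, eval_mul, expand_eval, pt_nsmul, norm_mul]
    rw [Real.mul_rpow (norm_nonneg _) (norm_nonneg _)]
    push_cast
    rfl
  have h3 : ∫ x, ‖absPow p hp R x‖ ∂μ = I p R := by
    unfold I
    congr 1
    ext x
    simp only [absPow, ContinuousMap.coe_mk, Complex.norm_real, Real.norm_eq_abs]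
    exact abs_of_nonneg (Real.rpow_nonneg (norm_nonneg _) _)
  rw [h2, integral_absPow, integral_absPow, h3, ← Complex.ofReal_mul, ← Complex.ofReal_sub,
    Complex.norm_real, Real.norm_eq_abs] at h
  exact h

lemma S_one : S (1 : ℂ[X]) = 1 := by
  ext m
  rw [coeff_S, coeff_one]
  split_ifs with h
  · exact trunc_of_norm_one _ (by simp)
  · exact trunc_zero

lemma big_one : Big (1 : ℂ[X]) := by
  intro j
  rw [coeff_one]
  split_ifs
  · right; simp
  · left; rfl

lemma I_one (p : ℝ) : I p 1 = 1 := by simp [I]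

/-! ### The upper bound -/

lemma eval_eq_sum (P : ℂ[X]) (x : 𝕋) : P.eval (pt x) =
    ∑ j ∈ Finset.range (P.natDegree + 1), P.coeff j * fourier (j : ℤ) x := by
  rw [eval_eq_sum_range]
  refine Finset.sum_congr rfl fun j _ => ?_
  rw [fourier_apply, natCast_zsmul, toCircle_nsmul]
  simp [pt]

/-- Parseval. -/
lemma I_two (P : ℂ[X]) : I 2 P = ∑ j ∈ Finset.range (P.natDegree + 1), ‖P.coeff j‖ ^ 2 := by
  have h1 : ((I 2 P : ℝ) : ℂ) = ∫ x, P.eval (pt x) * conj (P.eval (pt x)) ∂μ := by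
    have h0 : ∫ x, ((‖P.eval (pt x)‖ ^ (2 : ℝ) : ℝ) : ℂ) ∂μ = ((I 2 P : ℝ) : ℂ) :=
      integral_ofReal
    rw [← h0]
    congr 1
    ext x
    rw [Complex.mul_conj, Complex.normSq_eq_norm_sq]
    norm_num
  have h2 : ∀ x, P.eval (pt x) * conj (P.eval (pt x)) =
      ∑ j ∈ Finset.range (P.natDegree + 1), ∑ k ∈ Finset.range (P.natDegree + 1),
        P.coeff j * conj (P.coeff k) * fourier ((j : ℤ) - k) x := by
    intro x
    rw [eval_eq_sum, map_sum, Finset.sum_mul_sum]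
    refine Finset.sum_congr rfl fun j _ => Finset.sum_congr rfl fun k _ => ?_
    rw [map_mul, ← fourier_neg, sub_eq_add_neg, fourier_add]
    ring
  have h3 : ∫ x, P.eval (pt x) * conj (P.eval (pt x)) ∂μ =
      ∑ j ∈ Finset.range (P.natDegree + 1), ∑ k ∈ Finset.range (P.natDegree + 1),
        P.coeff j * conj (P.coeff k) * ∫ x, fourier ((j : ℤ) - k) x ∂μ := by
    have hi : ∀ j k : ℕ, Integrable (fun x => P.coeff j * conj (P.coeff k) *
        (fourier ((j : ℤ) - k) : C(𝕋, ℂ)) x) μ := fun j k =>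
      (cint (fourier ((j : ℤ) - k))).const_mul _
    have e0 : ∫ x, P.eval (pt x) * conj (P.eval (pt x)) ∂μ =
        ∫ x, ∑ j ∈ Finset.range (P.natDegree + 1), ∑ k ∈ Finset.range (P.natDegree + 1),
        P.coeff j * conj (P.coeff k) * (fourier ((j : ℤ) - k) : C(𝕋, ℂ)) x ∂μ :=
      integral_congr_ae (Eventually.of_forall h2)
    rw [e0, integral_finsetSum _ fun j _ => integrable_finsetSum _ fun k _ => hi j k]
    refine Finset.sum_congr rfl fun j _ => ?_
    rw [integral_finsetSum _ fun k _ => hi j k]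
    refine Finset.sum_congr rfl fun k _ => ?_
    rw [integral_const_mul]
  have h4 : ∀ j ∈ Finset.range (P.natDegree + 1), (∑ k ∈ Finset.range (P.natDegree + 1),
      P.coeff j * conj (P.coeff k) * ∫ x, fourier ((j : ℤ) - k) x ∂μ) =
      ((‖P.coeff j‖ ^ 2 : ℝ) : ℂ) := by
    intro j hj
    rw [Finset.sum_eq_single_of_mem j hj]
    · rw [sub_self]
      simp only [fourier_zero]
      rw [Complex.mul_conj, Complex.normSq_eq_norm_sq]
      simp
    · intro k _ hkj
      rw [integral_fourier _ (by omega), mul_zero]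
  have h5 : ((I 2 P : ℝ) : ℂ) =
      ((∑ j ∈ Finset.range (P.natDegree + 1), ‖P.coeff j‖ ^ 2 : ℝ) : ℂ) := by
    rw [h1, h3, Finset.sum_congr rfl h4]
    push_cast
    rfl
  exact Complex.ofReal_injective h5

lemma norm_trunc_le (a : ℂ) : ‖trunc a‖ ≤ ‖a‖ := by
  rw [← pull_eq]
  unfold pull
  split_ifs with h
  · exact le_rfl
  · rw [norm_div, Complex.norm_real, norm_norm]
    have h1 : 1 ≤ ‖a‖ := not_lt.1 h
    rw [div_self (by linarith)]
    exact h1

lemma I_two_S_le (P : ℂ[X]) : I 2 (S P) ≤ I 2 P := by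
  rw [I_two, I_two]
  calc ∑ j ∈ Finset.range ((S P).natDegree + 1), ‖(S P).coeff j‖ ^ 2
      ≤ ∑ j ∈ Finset.range (P.natDegree + 1), ‖(S P).coeff j‖ ^ 2 := by
        refine Finset.sum_le_sum_of_subset_of_nonneg ?_ fun _ _ _ => by positivity
        exact Finset.range_subset_range.2 (Nat.succ_le_succ (natDegree_S_le P))
    _ ≤ _ := by
        refine Finset.sum_le_sum fun j _ => ?_
        rw [coeff_S]
        exact pow_le_pow_left₀ (norm_nonneg _) (norm_trunc_le _) 2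

/-- Hölder. -/
lemma I_le_I_two (p : ℝ) (hp0 : 0 < p) (hp2 : p < 2) (P : ℂ[X]) :
    I p P ≤ (I 2 P) ^ (p / 2) := by
  have hA0 : 0 ≤ I 2 P := I_nonneg 2 P
  rcases hA0.eq_or_lt with h0 | hA
  · -- all coefficients vanish
    have hP : P = 0 := by
      ext j
      by_cases hj : j ∈ Finset.range (P.natDegree + 1)
      · rw [I_two] at h0
        have := (Finset.sum_eq_zero_iff_of_nonneg (fun j _ => by positivity)).1 h0.symm j hj
        simpa using this
      · rw [coeff_eq_zero_of_natDegree_lt]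
        · simp
        · simpa using hj
    rw [hP]
    simp [I, Real.zero_rpow hp0.ne']
    positivity
  · have c1 : Continuous fun x : 𝕋 => ‖P.eval (pt x)‖ ^ p :=
      ((P.continuous.comp continuous_pt).norm).rpow_const fun _ => Or.inr hp0.le
    have c2 : Continuous fun x : 𝕋 => ‖P.eval (pt x)‖ ^ (2 : ℝ) :=
      ((P.continuous.comp continuous_pt).norm).rpow_const fun _ => Or.inr (by norm_num)
    have hpt : ∀ x, ‖P.eval (pt x)‖ ^ p ≤ (I 2 P) ^ (p / 2) +
        p / 2 * (I 2 P) ^ (p / 2 - 1) * (‖P.eval (pt x)‖ ^ (2 : ℝ) - I 2 P) := by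
      intro x
      have h := tangent (p / 2) (‖P.eval (pt x)‖ ^ (2 : ℝ)) (I 2 P) (by positivity)
        (by linarith) (Real.rpow_nonneg (norm_nonneg _) _) hA
      rwa [← Real.rpow_mul (norm_nonneg _), show 2 * (p / 2) = p by ring] at h
    calc I p P ≤ ∫ x, ((I 2 P) ^ (p / 2) + p / 2 * (I 2 P) ^ (p / 2 - 1) *
          (‖P.eval (pt x)‖ ^ (2 : ℝ) - I 2 P)) ∂μ :=
          integral_mono (rint c1) (rint (continuous_const.add
            (continuous_const.mul (c2.sub continuous_const)))) hpt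
      _ = (I 2 P) ^ (p / 2) := by
          have e1 : ∫ x, ‖P.eval (pt x)‖ ^ (2 : ℝ) ∂μ = I 2 P := rfl
          have e2 : ∫ x, (‖P.eval (pt x)‖ ^ (2 : ℝ) - I 2 P) ∂μ = 0 := by
            have := integral_sub (μ := μ) (rint c2) (integrable_const (I 2 P))
            rw [this, e1]
            simp
          have i1 : Integrable (fun x => ‖P.eval (pt x)‖ ^ (2 : ℝ) - I 2 P) μ :=
            rint (c2.sub continuous_const)
          have e3 := integral_add (μ := μ) (integrable_const ((I 2 P) ^ (p / 2)))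
            (i1.const_mul (p / 2 * (I 2 P) ^ (p / 2 - 1)))
          refine e3.trans ?_
          rw [integral_const_mul, e2]
          simp

lemma sup_le (n : ℕ) (P : ℂ[X]) (hn : P.natDegree ≤ n) (x : 𝕋) :
    ‖P.eval (pt x)‖ ≤ ((n + 1 : ℝ) * I 2 P) ^ (1 / 2 : ℝ) := by
  have h1 : ‖P.eval (pt x)‖ ≤ ∑ j ∈ Finset.range (P.natDegree + 1), ‖P.coeff j‖ := by
    rw [eval_eq_sum_range]
    refine (norm_sum_le _ _).trans (Finset.sum_le_sum fun j _ => ?_)
    rw [norm_mul, norm_pow, norm_pt, one_pow, mul_one]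
  have h2 : (∑ j ∈ Finset.range (P.natDegree + 1), ‖P.coeff j‖) ^ 2 ≤ (n + 1 : ℝ) * I 2 P := by
    rw [I_two]
    refine (sq_sum_le_card_mul_sum_sq).trans ?_
    rw [Finset.card_range]
    refine mul_le_mul_of_nonneg_right ?_ (Finset.sum_nonneg fun _ _ => by positivity)
    exact_mod_cast Nat.succ_le_succ hn
  have h3 : 0 ≤ (n + 1 : ℝ) * I 2 P := mul_nonneg (by positivity) (I_nonneg 2 P)
  rw [← Real.sqrt_eq_rpow]
  exact h1.trans (Real.le_sqrt_of_sq_le h2)

lemma I_two_le (p : ℝ) (hp0 : 0 < p) (hp2 : p < 2) (n : ℕ) (P : ℂ[X]) (hn : P.natDegree ≤ n) :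
    (I 2 P) ^ (p / 2) ≤ (n + 1 : ℝ) ^ ((2 - p) / 2) * I p P := by
  have hA0 : 0 ≤ I 2 P := I_nonneg 2 P
  rcases hA0.eq_or_lt with h0 | hA
  · rw [← h0, Real.zero_rpow (by positivity)]
    exact mul_nonneg (by positivity) (I_nonneg p P)
  have c1 : Continuous fun x : 𝕋 => ‖P.eval (pt x)‖ ^ p :=
    ((P.continuous.comp continuous_pt).norm).rpow_const fun _ => Or.inr hp0.le
  have c2 : Continuous fun x : 𝕋 => ‖P.eval (pt x)‖ ^ (2 : ℝ) :=
    ((P.continuous.comp continuous_pt).norm).rpow_const fun _ => Or.inr (by norm_num)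
  set B := ((n + 1 : ℝ) * I 2 P) ^ (1 / 2 : ℝ) with hB
  have h1 : I 2 P ≤ B ^ (2 - p) * I p P := by
    have : ∫ x, B ^ (2 - p) * ‖P.eval (pt x)‖ ^ p ∂μ = B ^ (2 - p) * I p P :=
      integral_const_mul _ _
    rw [← this]
    refine integral_mono (rint c2) (rint (continuous_const.mul c1)) fun x => ?_
    change ‖P.eval (pt x)‖ ^ (2 : ℝ) ≤ B ^ (2 - p) * ‖P.eval (pt x)‖ ^ p
    rcases (norm_nonneg (P.eval (pt x))).eq_or_lt with h | h
    · rw [← h, Real.zero_rpow (by norm_num), Real.zero_rpow hp0.ne', mul_zero]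
    · calc ‖P.eval (pt x)‖ ^ (2 : ℝ) = ‖P.eval (pt x)‖ ^ (2 - p) * ‖P.eval (pt x)‖ ^ p := by
            rw [← Real.rpow_add h]; congr 1; ring
        _ ≤ _ := by
            refine mul_le_mul_of_nonneg_right ?_ (Real.rpow_nonneg h.le _)
            exact Real.rpow_le_rpow h.le (sup_le n P hn x) (by linarith)
  have h2 : B ^ (2 - p) = (n + 1 : ℝ) ^ ((2 - p) / 2) * (I 2 P) ^ ((2 - p) / 2) := by
    rw [hB, ← Real.rpow_mul (by positivity), Real.mul_rpow (by positivity) hA0]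
    congr 2 <;> ring
  rw [h2] at h1
  have h3 : (I 2 P) = (I 2 P) ^ (p / 2) * (I 2 P) ^ ((2 - p) / 2) := by
    rw [← Real.rpow_add hA]
    conv_lhs => rw [← Real.rpow_one (I 2 P)]
    congr 1; ring
  have h4 : 0 < (I 2 P) ^ ((2 - p) / 2) := Real.rpow_pos_of_pos hA _
  refine le_of_mul_le_mul_right ?_ h4
  calc (I 2 P) ^ (p / 2) * (I 2 P) ^ ((2 - p) / 2) = I 2 P := h3.symm
    _ ≤ _ := h1
    _ = _ := by ring

lemma upper (p : ℝ) (hp0 : 0 < p) (hp2 : p < 2) (n : ℕ) (P : ℂ[X]) (hn : P.natDegree ≤ n) :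
    Lp p (Strunc P) ≤ (n + 1 : ℝ) ^ (1 / p - 1 / 2) * Lp p P := by
  change pnorm p _ ≤ _ * pnorm p _
  rw [Strunc_eq, pnorm_eq, pnorm_eq]
  have h1 : I p (S P) ≤ (n + 1 : ℝ) ^ ((2 - p) / 2) * I p P :=
    (I_le_I_two p hp0 hp2 _).trans ((Real.rpow_le_rpow (I_nonneg 2 _) (I_two_S_le P)
      (by positivity)).trans (I_two_le p hp0 hp2 n P hn))
  have hI := I_nonneg p P
  have hI' := I_nonneg p (S P)
  calc (2 * π * I p (S P)) ^ (1 / p)
      ≤ ((n + 1 : ℝ) ^ ((2 - p) / 2) * (2 * π * I p P)) ^ (1 / p) := by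
        refine Real.rpow_le_rpow (by positivity) ?_ (by positivity)
        have := mul_le_mul_of_nonneg_left h1 (show (0 : ℝ) ≤ 2 * π by positivity)
        linarith
    _ = _ := by
        rw [Real.mul_rpow (by positivity) (by positivity), ← Real.rpow_mul (by positivity)]
        congr 2
        field_simp

/-- The iterated products. -/
noncomputable def R (P0 : ℂ[X]) (N : ℕ) : ℕ → ℂ[X]
  | 0 => 1
  | k + 1 => P0 * expand ℂ N (R P0 N k)

/-- **Polynomial growth.**  For every `p ∈ (0,2)`: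

* there are `δ > 0` and `c > 0` such that for all `n ≥ 1` some nonzero complex polynomial `P` of
  degree at most `n` satisfies `‖S_n(P)‖_p ≥ c n^δ ‖P‖_p`; that is, `N^comp_{n,p} ≥ c n^δ`;
* `‖S_n(P)‖_p ≤ (n+1)^(1/p - 1/2) ‖P‖_p` for all complex polynomials `P` of degree at most `n`;
  that is, `N^comp_{n,p} ≤ (n+1)^(1/p - 1/2)`. -/
theorem result (p : ℝ) (hp0 : 0 < p) (hp2 : p < 2) :
    (∃ δ : ℝ, 0 < δ ∧ ∃ c : ℝ, 0 < c ∧ ∀ n : ℕ, 1 ≤ n →
      ∃ P : ℂ[X], P ≠ 0 ∧ P.natDegree ≤ n ∧ c * (n : ℝ) ^ δ * Lp p P ≤ Lp p (Strunc P)) ∧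
    ∀ (n : ℕ) (P : ℂ[X]), P.natDegree ≤ n →
      Lp p (Strunc P) ≤ (n + 1 : ℝ) ^ (1 / p - 1 / 2) * Lp p P := by
  refine ⟨?_, fun n P hn => upper p hp0 hp2 n P hn⟩
  obtain ⟨P0, hP0, hlt⟩ := exists_seed p hp0 hp2
  set a := I p P0 with ha
  set b := I p (S P0) with hb
  have ha0 : 0 ≤ a := I_nonneg p P0
  set ε := (b - a) / 4 with hε
  have hε0 : 0 < ε := by rw [hε]; linarith
  obtain ⟨N1, hN1⟩ := uniform_I p hp0 P0 hε0
  obtain ⟨N2, hN2⟩ := uniform_I p hp0 (S P0) hε0
  set N := N1 + N2 + P0.natDegree + 2 with hN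
  set ρ := (b - ε) / (a + ε) with hρ
  have haε : 0 < a + ε := by linarith
  have hbε : 0 < b - ε := by rw [hε]; linarith
  have hρ1 : 1 < ρ := by
    rw [hρ, one_lt_div haε, hε]; linarith
  have hρ0 : 0 < ρ := by linarith
  -- properties of the products
  have big : ∀ k, Big (R P0 N k) := by
    intro k
    induction k with
    | zero => exact big_one
    | succ k ih => exact hP0.mul_expand ih N (by omega)
  have hS : ∀ k, S (R P0 N (k + 1)) = S P0 * expand ℂ N (S (R P0 N k)) := fun k =>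
    S_mul_expand P0 _ N (by omega) hP0 (big k)
  have hdeg : ∀ k, (R P0 N k).natDegree + 1 ≤ N ^ k := by
    intro k
    induction k with
    | zero => simp [R]
    | succ k ih =>
      have h1 : (R P0 N (k + 1)).natDegree ≤ P0.natDegree + (R P0 N k).natDegree * N := by
        change (P0 * expand ℂ N (R P0 N k)).natDegree ≤ _
        refine natDegree_mul_le.trans ?_
        rw [natDegree_expand]
      have h2 : ((R P0 N k).natDegree + 1) * N ≤ N ^ k * N := Nat.mul_le_mul_right _ ih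
      rw [pow_succ]
      have h3 : ((R P0 N k).natDegree + 1) * N = (R P0 N k).natDegree * N + N := by ring
      omega
  have hpos : ∀ k, 0 < I p (S (R P0 N k)) := by
    intro k
    induction k with
    | zero => rw [R, S_one, I_one]; norm_num
    | succ k ih =>
      rw [hS]
      have h1 := (abs_le.1 (hN2 N (by omega) (S (R P0 N k)))).1
      have h2 : (b - ε) * I p (S (R P0 N k)) ≤ I p (S P0 * expand ℂ N (S (R P0 N k))) := by
        rw [sub_mul]; linarith
      exact lt_of_lt_of_le (mul_pos hbε ih) h2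
  have hmain : ∀ k, ρ ^ k * I p (R P0 N k) ≤ I p (S (R P0 N k)) := by
    intro k
    induction k with
    | zero => rw [R, S_one]; simp
    | succ k ih =>
      rw [hS]
      have h1 := (abs_le.1 (hN2 N (by omega) (S (R P0 N k)))).1
      have h2 : (b - ε) * I p (S (R P0 N k)) ≤ I p (S P0 * expand ℂ N (S (R P0 N k))) := by
        rw [sub_mul]; linarith
      have h3 := (abs_le.1 (hN1 N (by omega) (R P0 N k))).2
      have h4 : I p (R P0 N (k + 1)) ≤ (a + ε) * I p (R P0 N k) := by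
        change I p (P0 * expand ℂ N (R P0 N k)) ≤ _
        rw [add_mul]; linarith
      calc ρ ^ (k + 1) * I p (R P0 N (k + 1)) ≤ ρ ^ (k + 1) * ((a + ε) * I p (R P0 N k)) := by
            gcongr
        _ = (b - ε) * (ρ ^ k * I p (R P0 N k)) := by
            rw [pow_succ, hρ]; field_simp
        _ ≤ (b - ε) * I p (S (R P0 N k)) := by gcongr
        _ ≤ _ := h2
  have hne : ∀ k, R P0 N k ≠ 0 := by
    intro k h0
    have h1 := hpos k
    rw [h0] at h1
    have : S 0 = 0 := by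
      ext m
      rw [coeff_S]
      simp [trunc_zero]
    rw [this] at h1
    have h0 : I p 0 = 0 := by
      simp [I, Real.zero_rpow hp0.ne']
    rw [h0] at h1
    exact lt_irrefl _ h1
  have hNr : (1 : ℝ) < N := by
    have : 1 < N := by omega
    exact_mod_cast this
  set δ := Real.log ρ / (p * Real.log N) with hδ
  have hlogN : 0 < Real.log N := Real.log_pos hNr
  have hlogρ : 0 < Real.log ρ := Real.log_pos hρ1
  have hδ0 : 0 < δ := by positivity
  refine ⟨δ, hδ0, ρ ^ (-(1 / p)), by positivity, fun n hn => ?_⟩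
  set k := Nat.log N n with hk
  have hk1 : N ^ k ≤ n := Nat.pow_log_le_self N (by omega)
  have hk2 : n < N ^ (k + 1) := Nat.lt_pow_succ_log_self (by omega) n
  refine ⟨R P0 N k, hne k, ?_, ?_⟩
  · have := hdeg k
    omega
  · change _ * _ * pnorm p _ ≤ pnorm p _
    rw [Strunc_eq, pnorm_eq, pnorm_eq]
    have h2π : (0 : ℝ) ≤ 2 * π := by positivity
    have hI1 := I_nonneg p (R P0 N k)
    have hI2 := I_nonneg p (S (R P0 N k))
    have h1 : ρ ^ (-(1 / p)) * (n : ℝ) ^ δ ≤ (ρ ^ k) ^ (1 / p) := by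
      have h2 : (n : ℝ) ^ δ ≤ ((N : ℝ) ^ (k + 1)) ^ δ := by
        refine Real.rpow_le_rpow (by positivity) ?_ hδ0.le
        exact_mod_cast hk2.le
      have h3 : ((N : ℝ) ^ (k + 1)) ^ δ = (ρ ^ (k + 1)) ^ (1 / p) := by
        rw [← Real.rpow_natCast (N : ℝ), ← Real.rpow_mul (by positivity),
          ← Real.rpow_natCast ρ, ← Real.rpow_mul hρ0.le,
          Real.rpow_def_of_pos (by linarith), Real.rpow_def_of_pos hρ0]
        congr 1
        rw [hδ]
        field_simp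
      calc ρ ^ (-(1 / p)) * (n : ℝ) ^ δ ≤ ρ ^ (-(1 / p)) * (ρ ^ (k + 1)) ^ (1 / p) := by
            rw [← h3]; gcongr
        _ = (ρ ^ k) ^ (1 / p) := by
            rw [← Real.rpow_natCast ρ, ← Real.rpow_mul hρ0.le, ← Real.rpow_add hρ0,
              ← Real.rpow_natCast ρ, ← Real.rpow_mul hρ0.le]
            congr 1
            push_cast
            ring
    calc ρ ^ (-(1 / p)) * (n : ℝ) ^ δ * (2 * π * I p (R P0 N k)) ^ (1 / p)
        ≤ (ρ ^ k) ^ (1 / p) * (2 * π * I p (R P0 N k)) ^ (1 / p) := by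
          gcongr
      _ = (ρ ^ k * (2 * π * I p (R P0 N k))) ^ (1 / p) :=
          (Real.mul_rpow (x := ρ ^ k) (y := 2 * π * I p (R P0 N k)) (by positivity)
            (by positivity)).symm
      _ ≤ (2 * π * I p (S (R P0 N k))) ^ (1 / p) := by
          refine Real.rpow_le_rpow (by positivity) ?_ (by positivity)
          have := mul_le_mul_of_nonneg_left (hmain k) h2π
          linarith

end Pool.Agent.Results.MP_7d00fe_an.PolynomialGrowth
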